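import Pool.Agent.Q263.HR.Geo

/-! # Project HR (helper263): JOB HR-CONT (helper154) -/

set_option autoImplicit false

open scoped Manifold ContDiff Topology
open Set Filter Pool.Agent.H721R2

namespace Pool.Agent.Q154.HR

open Q263.HR

universe u v w

theorem cont : S_CONT.{u, v, w} := by
  intro E _ _ _ M _ _ _ _ F _ _ e hE β B hβ R B' hB' f Λ Es Eu C a h K hK hang η hη
  have he : ContMDiff 𝓘(ℝ, E) 𝓘(ℝ, F) 1 e := hE.smooth.of_le (by norm_num)
  have hinj := hE.inj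
  have hC := h.C_pos
  have hK0 : 0 < K := by linarith
  have hB := hβ.pos
  have ht1 : Tendsto (fun n : ℕ => C * a ^ n) atTop (𝓝 0) := by
    have := (tendsto_pow_atTop_nhds_zero_of_lt_one h.a_pos.le h.a_lt).const_mul C
    simpa using this
  set q := min (1 / (6 * K)) (η / 4) with hq
  have hq0 : 0 < q := lt_min (by positivity) (by positivity)
  obtain ⟨n, hn1⟩ := ((tendsto_order.mp ht1).2 q hq0).exists
  have hq1 : q ≤ 1 / (6 * K) := min_le_left _ _
  have hq2 : q ≤ η / 4 := min_le_right _ _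
  have hq3 : 6 * K * q ≤ 1 := by
    rw [le_div_iff₀ (by positivity)] at hq1
    linarith
  set η'' := min 1 (η / 4) with hη''
  have hη''0 : 0 < η'' := lt_min one_pos (by positivity)
  have hη''1 : η'' ≤ 1 := min_le_left _ _
  have hη''2 : η'' ≤ η / 4 := min_le_right _ _
  obtain ⟨Bn, hBn, hBnv⟩ := global_bound e he hinj (f^[n]) (iter_smooth f h.smooth n)
  obtain ⟨D, hD⟩ : ∃ D, D = 1 + (1 + B) * (1 + Bn) * (1 + |B'|) := ⟨_, rfl⟩
  have hD0 : 0 < D := by rw [hD]; positivity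
  obtain ⟨η', hη'⟩ : ∃ η', η' = η'' / D := ⟨_, rfl⟩
  have hη'0 : 0 < η' := by rw [hη']; positivity
  have hηD : η' * D = η'' := by rw [hη']; field_simp
  have hP : ∃ r > 0, ∀ x y, dist x y < r → ∀ v : E, ∃ w : E,
      ‖dm E e x v - dm E e y w‖ ≤ η' * ‖dm E e x v‖ ∧
      ‖dm E e (f^[n] x) (dg E (f^[n]) x v) - dm E e (f^[n] y) (dg E (f^[n]) y w)‖ ≤
        η' * ‖dm E e x v‖ := by
    apply exists_uniform_radius
    intro x₀
    obtain ⟨-, h1⟩ := local_all e he hinj (e ∘ f^[n]) (he.comp (iter_smooth f h.smooth n)) x₀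
    obtain ⟨W, hW, r, hr, -, -, h2⟩ := h1 η' hη'0
    refine ⟨W, hW, fun x hx y hy v => ?_⟩
    obtain ⟨w, h3, h4⟩ := h2 x hx y hy v
    rw [dm_comp e he _ (iter_smooth f h.smooth n), dm_comp e he _ (iter_smooth f h.smooth n)] at h4
    exact ⟨w, h3, h4⟩
  obtain ⟨r₁, hr₁, hP⟩ := hP
  obtain ⟨r₂, hr₂, hQ⟩ := hβ.cont η' hη'0
  refine ⟨min r₁ r₂, lt_min hr₁ hr₂, fun x hx y hy hxy s hs => ?_⟩
  obtain ⟨w₀, h1₀, h2₀⟩ := hP x y (lt_of_lt_of_le hxy (min_le_left _ _)) s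
  set N := ‖dm E e x s‖ with hN
  have hN0 : 0 ≤ N := norm_nonneg _
  -- the correction along the flow
  obtain ⟨t, ht⟩ : ∃ t, t = β y w₀ := ⟨_, rfl⟩
  have htb : |t| ≤ (1 + B) * (η' * N) := by
    have h3 := hQ x y (lt_of_lt_of_le hxy (min_le_right _ _)) s w₀
    rw [h.kerS x hx s hs, zero_sub, abs_neg, ← ht] at h3
    have h4 : B * ‖dm E e x s - dm E e y w₀‖ ≤ B * (η' * N) := mul_le_mul_of_nonneg_left h1₀ hB.le
    linarith
  have ht0 : 0 ≤ |t| := abs_nonneg t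
  have hRy : ‖dm E e y (R y)‖ ≤ |B'| := (hB' y).trans (le_abs_self _)
  obtain ⟨w, hw'⟩ : ∃ w, w = w₀ - t • R y := ⟨_, rfl⟩
  have hβw : β y w = 0 := by
    rw [hw', map_sub, map_smul, h.unit, smul_eq_mul, mul_one, ht, sub_self]
  have hηN : 0 ≤ η' * N := mul_nonneg hη'0.le hN0
  have hBB : 0 ≤ |B'| := abs_nonneg B'
  have hsumD : η' * N + (1 + B) * (η' * N) * ((1 + Bn) * (1 + |B'|)) = η'' * N := by
    rw [← hηD, hD]; ring
  have h1 : ‖dm E e x s - dm E e y w‖ ≤ η'' * N := by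
    have e1 : dm E e x s - dm E e y w = (dm E e x s - dm E e y w₀) + t • dm E e y (R y) := by
      rw [hw', map_sub, map_smul]; abel
    rw [e1]
    refine (norm_add_le _ _).trans ?_
    rw [norm_smul, Real.norm_eq_abs]
    have h3 : |t| * ‖dm E e y (R y)‖ ≤ (1 + B) * (η' * N) * ((1 + Bn) * (1 + |B'|)) := by
      refine mul_le_mul htb (hRy.trans ?_) (norm_nonneg _) (by positivity)
      nlinarith
    linarith
  have h2 : ‖dm E e (f^[n] x) (dg E (f^[n]) x s) - dm E e (f^[n] y) (dg E (f^[n]) y w)‖ ≤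
      η'' * N := by
    have e1 : dm E e (f^[n] x) (dg E (f^[n]) x s) - dm E e (f^[n] y) (dg E (f^[n]) y w) =
        (dm E e (f^[n] x) (dg E (f^[n]) x s) - dm E e (f^[n] y) (dg E (f^[n]) y w₀)) +
          t • dm E e (f^[n] y) (dg E (f^[n]) y (R y)) := by
      rw [hw', map_sub, map_sub, map_smul, map_smul]; abel
    rw [e1]
    refine (norm_add_le _ _).trans ?_
    rw [norm_smul, Real.norm_eq_abs]
    have h3 : |t| * ‖dm E e (f^[n] y) (dg E (f^[n]) y (R y))‖ ≤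
        (1 + B) * (η' * N) * ((1 + Bn) * (1 + |B'|)) := by
      refine mul_le_mul htb ?_ (norm_nonneg _) (by positivity)
      have h4 := (hBnv y (R y)).trans (mul_le_mul_of_nonneg_left hRy hBn.le)
      nlinarith
    linarith
  obtain ⟨ws, hws, wu, hwu, hsum⟩ := h.decomp y hy w hβw
  obtain ⟨ha1, ha2⟩ := hang y hy ws hws wu hwu
  rw [hsum] at ha1 ha2
  refine ⟨ws, hws, ?_⟩
  -- norm of w
  have hw : ‖dm E e y w‖ ≤ 2 * N := by
    have h3 := norm_sub_le (dm E e x s) (dm E e x s - dm E e y w)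
    rw [sub_sub_cancel] at h3
    have h4 : η'' * N ≤ 1 * N := mul_le_mul_of_nonneg_right hη''1 hN0
    linarith
  set Ds := dm E e (f^[n] x) (dg E (f^[n]) x s) with hDs
  set Dws := dm E e (f^[n] y) (dg E (f^[n]) y ws) with hDws
  set Dwu := dm E e (f^[n] y) (dg E (f^[n]) y wu) with hDwu
  have hDw : dm E e (f^[n] y) (dg E (f^[n]) y w) = Dws + Dwu := by
    rw [← hsum, map_add, map_add]
  rw [hDw] at h2
  have h3 : ‖Ds‖ ≤ q * N := (h.hS n x hx s hs).trans (mul_le_mul_of_nonneg_right hn1.le hN0)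
  have h4 : ‖Dws‖ ≤ q * (K * (2 * N)) := by
    refine (h.hS n y hy ws hws).trans ?_
    refine mul_le_mul hn1.le (ha1.trans (mul_le_mul_of_nonneg_left hw hK0.le)) (norm_nonneg _) hq0.le
  have h5 : ‖dm E e y wu‖ ≤ q * ‖Dwu‖ := by
    have h6 := h.hU' n (f^[n] y) (h.inv y hy n) _ (h.mapU n y hy wu hwu)
    rw [dg_inv (f^[n]) (f.symm^[n]) (iter_smooth f h.smooth n) (iter_smooth _ h.smooth' n)
      (iter_left f n), iter_left] at h6
    exact h6.trans (mul_le_mul_of_nonneg_right hn1.le (norm_nonneg _))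
  have h6 : ‖Dwu‖ ≤ ‖Ds‖ + ‖Ds - (Dws + Dwu)‖ + ‖Dws‖ := by
    have e1 : Dwu = Ds - (Ds - (Dws + Dwu)) - Dws := by abel
    have h7 := norm_sub_le (Ds - (Ds - (Dws + Dwu))) Dws
    have h8 := norm_sub_le Ds (Ds - (Dws + Dwu))
    rw [← e1] at h7
    linarith
  have h7 : ‖Dwu‖ ≤ 3 * N := by
    have h8 : q * N ≤ 1 * N := mul_le_mul_of_nonneg_right (by nlinarith) hN0
    have h9 : η'' * N ≤ 1 * N := mul_le_mul_of_nonneg_right hη''1 hN0
    have h10 : q * (K * (2 * N)) ≤ 1 / 3 * N := by nlinarith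
    nlinarith
  have h8 : ‖dm E e y wu‖ ≤ 3 / 4 * η * N := by
    refine h5.trans ?_
    calc q * ‖Dwu‖ ≤ (η / 4) * (3 * N) := mul_le_mul hq2 h7 (norm_nonneg _) (by positivity)
      _ = _ := by ring
  have e1 : dm E e x s - dm E e y ws = (dm E e x s - dm E e y w) + dm E e y wu := by
    rw [← hsum, map_add]; abel
  rw [e1]
  have h9 := norm_add_le (dm E e x s - dm E e y w) (dm E e y wu)
  have h10 : η'' * N ≤ η / 4 * N := mul_le_mul_of_nonneg_right hη''2 hN0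
  linarith

end Pool.Agent.Q154.HR
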