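import Pool.Agent.Q263.HR.Geo

/-! # Project HR (helper263): JOB HR-DER (helper154) -/

set_option autoImplicit false

open scoped Manifold ContDiff Topology
open Set Filter Pool.Agent.H721R2

namespace Pool.Agent.Q154.HR

open Q263.HR

universe u v w

/-- a pointwise Lipschitz comparison gives a comparison of the derivatives -/
theorem deriv_comp {F : Type*} [NormedAddCommGroup F] [NormedSpace ℝ F] {f g : ℝ → F} {f' g' : F}
    {η : ℝ} (hf : HasDerivAt f f' 0) (hg : HasDerivAt g g' 0)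
    (h : ∀ᶠ s in 𝓝 (0 : ℝ), ‖f s - f 0‖ ≤ η * ‖g s - g 0‖) : ‖f'‖ ≤ η * ‖g'‖ := by
  have h1 : Tendsto (fun s : ℝ => ‖s⁻¹ • (f (0 + s) - f 0)‖) (𝓝[≠] 0) (𝓝 ‖f'‖) :=
    hf.tendsto_slope_zero.norm
  have h2 : Tendsto (fun s : ℝ => η * ‖s⁻¹ • (g (0 + s) - g 0)‖) (𝓝[≠] 0) (𝓝 (η * ‖g'‖)) :=
    hg.tendsto_slope_zero.norm.const_mul η
  refine le_of_tendsto_of_tendsto h1 h2 ?_
  filter_upwards [nhdsWithin_le_nhds h] with s hs
  rw [zero_add, norm_smul, norm_smul]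
  calc ‖s⁻¹‖ * ‖f s - f 0‖ ≤ ‖s⁻¹‖ * (η * ‖g s - g 0‖) :=
        mul_le_mul_of_nonneg_left hs (norm_nonneg _)
    _ = η * (‖s⁻¹‖ * ‖g s - g 0‖) := by ring

theorem der : S_DER.{u, v, w} := by
  intro E _ _ _ M _ _ _ _ F _ _ e he Φ hΦ hF η hη
  obtain ⟨r, hr, hF⟩ := hF η hη
  have he1 : ContMDiff 𝓘(ℝ, E) 𝓘(ℝ, F) 1 e := he.smooth.of_le (by norm_num)
  refine ⟨r, hr, fun τ hτ y v => ?_⟩
  have hΦ1 : ContMDiff 𝓘(ℝ, E) 𝓘(ℝ, E) 1 (Φ τ) := (hΦ τ).of_le (by norm_num)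
  have hh1 : ContMDiff 𝓘(ℝ, E) 𝓘(ℝ, F) 1 (e ∘ Φ τ) := he1.comp hΦ1
  rw [← dm_comp e he1 (Φ τ) hΦ1 y v]
  have hy : y ∈ (extChartAt 𝓘(ℝ, E) y).source := mem_extChartAt_source y
  obtain ⟨p, hp⟩ : ∃ p, p = extChartAt 𝓘(ℝ, E) y y := ⟨_, rfl⟩
  have hpt : p ∈ (extChartAt 𝓘(ℝ, E) y).target := by rw [hp]; exact mem_extChartAt_target y
  have hpy : (extChartAt 𝓘(ℝ, E) y).symm p = y := by rw [hp]; exact extChartAt_to_inv y
  obtain ⟨a, ha⟩ : ∃ a : E, a = dm E (extChartAt 𝓘(ℝ, E) y) y v := ⟨_, rfl⟩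
  have e1 : dm E (e ∘ Φ τ) y v = fderiv ℝ (hatMap (E₀ := E) (e ∘ Φ τ) y) p a := by
    rw [hatMap_mfderiv (e ∘ Φ τ) hh1 y y hy v, hp, ha]
  have e2 : dm E e y v = fderiv ℝ (hatMap (E₀ := E) e y) p a := by
    rw [hatMap_mfderiv e he1 y y hy v, hp, ha]
  have d1 : HasFDerivAt (hatMap (E₀ := E) (e ∘ Φ τ) y) (fderiv ℝ (hatMap (E₀ := E) (e ∘ Φ τ) y) p) p :=
    ((hatMap_contDiffAt (e ∘ Φ τ) hh1 y p hpt).differentiableAt (by norm_num)).hasFDerivAt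
  have d2 : HasFDerivAt (hatMap (E₀ := E) e y) (fderiv ℝ (hatMap (E₀ := E) e y) p) p :=
    ((hatMap_contDiffAt e he1 y p hpt).differentiableAt (by norm_num)).hasFDerivAt
  have hl : HasDerivAt (fun s : ℝ => p + s • a) a 0 := by
    have h1 : HasDerivAt (fun s : ℝ => s • a) ((1 : ℝ) • a) 0 := (hasDerivAt_id' (0 : ℝ)).smul_const a
    rw [one_smul] at h1
    exact h1.const_add p
  have hp0 : p + (0 : ℝ) • a = p := by rw [zero_smul, add_zero]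
  have c1 : HasDerivAt (fun s : ℝ => hatMap (E₀ := E) (e ∘ Φ τ) y (p + s • a))
      (fderiv ℝ (hatMap (E₀ := E) (e ∘ Φ τ) y) p a) 0 := by
    have h1 : HasFDerivAt (hatMap (E₀ := E) (e ∘ Φ τ) y)
        (fderiv ℝ (hatMap (E₀ := E) (e ∘ Φ τ) y) p) (p + (0 : ℝ) • a) := by rw [hp0]; exact d1
    exact h1.comp_hasDerivAt (0 : ℝ) hl
  have c2 : HasDerivAt (fun s : ℝ => hatMap (E₀ := E) e y (p + s • a))
      (fderiv ℝ (hatMap (E₀ := E) e y) p a) 0 := by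
    have h1 : HasFDerivAt (hatMap (E₀ := E) e y)
        (fderiv ℝ (hatMap (E₀ := E) e y) p) (p + (0 : ℝ) • a) := by rw [hp0]; exact d2
    exact h1.comp_hasDerivAt (0 : ℝ) hl
  have c3 : HasDerivAt (fun s : ℝ => hatMap (E₀ := E) (e ∘ Φ τ) y (p + s • a) -
      hatMap (E₀ := E) e y (p + s • a)) (fderiv ℝ (hatMap (E₀ := E) (e ∘ Φ τ) y) p a -
      fderiv ℝ (hatMap (E₀ := E) e y) p a) 0 := c1.fun_sub c2
  rw [e1, e2]
  refine deriv_comp c3 c2 ?_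
  -- the points of the curve are near `y`
  have hcont : ContinuousAt (fun s : ℝ => (extChartAt 𝓘(ℝ, E) y).symm (p + s • a)) 0 := by
    have h1 : ContinuousAt (extChartAt 𝓘(ℝ, E) y).symm (p + (0 : ℝ) • a) := by
      rw [hp0, hp]
      exact continuousAt_extChartAt_symm y
    exact ContinuousAt.comp (f := fun s : ℝ => p + s • a) h1 hl.continuousAt
  have hev : ∀ᶠ s in 𝓝 (0 : ℝ), dist ((extChartAt 𝓘(ℝ, E) y).symm (p + s • a)) y < r := by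
    have h1 := Metric.continuousAt_iff'.mp hcont r hr
    rw [hp0, hpy] at h1
    exact h1
  filter_upwards [hev] with s hs
  obtain ⟨y', hy'⟩ : ∃ y', y' = (extChartAt 𝓘(ℝ, E) y).symm (p + s • a) := ⟨_, rfl⟩
  rw [← hy'] at hs
  have h1 := hF τ y y' hτ (by rw [dist_comm]; exact hs)
  rw [he.iso y y', norm_sub_rev (e y) (e y')] at h1
  have k1 : hatMap (E₀ := E) (e ∘ Φ τ) y (p + s • a) = e (Φ τ y') := by rw [hy']; rfl
  have k2 : hatMap (E₀ := E) e y (p + s • a) = e y' := by rw [hy']; rfl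
  have k3 : hatMap (E₀ := E) (e ∘ Φ τ) y (p + (0 : ℝ) • a) = e (Φ τ y) := by
    rw [hp0]
    show e (Φ τ ((extChartAt 𝓘(ℝ, E) y).symm p)) = _
    rw [hpy]
  have k4 : hatMap (E₀ := E) e y (p + (0 : ℝ) • a) = e y := by
    rw [hp0]
    show e ((extChartAt 𝓘(ℝ, E) y).symm p) = _
    rw [hpy]
  rw [k1, k2, k3, k4]
  have k5 : e (Φ τ y') - e y' - (e (Φ τ y) - e y) =
      (e (Φ τ y') - e (Φ τ y)) - (e y' - e y) := by abel
  rw [k5]
  exact h1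

end Pool.Agent.Q154.HR
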